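import Pool.Agent.Run7.h325.RSI.Stm

/-!
# Project RSI (helper325): pieces GRP, LAT, CNT
-/

set_option autoImplicit false

namespace Pool.Agent.Run7.h937.RSI

open MeasureTheory Filter Topology Metric Pool.Agent.Run7.h325.RSI

noncomputable section

theorem r0_pos {m : ℕ} (hm : 1 ≤ m) : 0 < r0 m := by
  unfold r0
  have : (0 : ℝ) < m := by exact_mod_cast hm
  positivity

theorem dl_pos {m : ℕ} (hm : 1 ≤ m) : 0 < dl m := by
  unfold dl
  have : (0 : ℝ) < m := by exact_mod_cast hm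
  positivity

theorem dl_le_one {m : ℕ} (hm : 1 ≤ m) : dl m ≤ 1 := by
  unfold dl
  have : (1 : ℝ) ≤ (m : ℝ) := by exact_mod_cast hm
  have h2 : (1 : ℝ) ≤ (m : ℝ) ^ 4 := one_le_pow₀ this
  rw [div_le_one (by linarith)]
  exact h2

theorem t_GRP : S_GRP := by
  intro m hm
  have hr := r0_pos hm
  have hd0 := dl_pos hm
  have hd1 := dl_le_one hm
  have hex : -(2 - dl m) ≤ 0 := by linarith
  have h1 : ∀ t, 1 ≤ Gr m t := by
    intro t
    unfold Gr
    split_ifs with h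
    · exact Real.one_le_rpow_of_pos_of_le_one_of_nonpos (div_pos h.1 hr)
        ((div_le_one hr).mpr h.2.le) hex
    · exact le_rfl
  have h4 : ∀ t, r0 m ≤ t → Gr m t = 1 := by
    intro t ht
    unfold Gr
    rw [if_neg]
    rintro ⟨_, h⟩
    linarith
  refine ⟨h1, ?_, ?_, h4, ?_⟩
  · intro s t hs hst
    by_cases ht : t < r0 m
    · unfold Gr
      rw [if_pos ⟨by linarith, ht⟩, if_pos ⟨hs, by linarith⟩]
      exact (Real.rpow_le_rpow_iff_of_neg (div_pos (by linarith) hr) (div_pos hs hr)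
        (by linarith : -(2 - dl m) < 0)).mpr (div_le_div_of_nonneg_right hst hr.le)
    · rw [h4 t (not_lt.mp ht)]
      exact h1 s
  · intro t ht
    by_cases h3 : t / 3 < r0 m
    · have e1 : Gr m (t / 3) = (t / r0 m) ^ (-(2 - dl m)) * 3 ^ (2 - dl m) := by
        unfold Gr
        rw [if_pos ⟨by positivity, h3⟩]
        have e2 : t / 3 / r0 m = (t / r0 m) * (3 : ℝ)⁻¹ := by
          field_simp
        rw [e2, Real.mul_rpow (by positivity) (by positivity), Real.inv_rpow (by norm_num),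
          ← Real.rpow_neg (by norm_num), neg_neg]
      have e3 : (3 : ℝ) ^ (2 - dl m) ≤ 9 := by
        calc (3 : ℝ) ^ (2 - dl m) ≤ (3 : ℝ) ^ (2 : ℝ) :=
              Real.rpow_le_rpow_of_exponent_le (by norm_num) (by linarith)
          _ = 9 := by
              rw [Real.rpow_two]
              norm_num
      have e4 : (t / r0 m) ^ (-(2 - dl m)) ≤ Gr m t := by
        by_cases htr : t < r0 m
        · unfold Gr
          rw [if_pos ⟨ht, htr⟩]
        · rw [h4 t (not_lt.mp htr)]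
          exact Real.rpow_le_one_of_one_le_of_nonpos ((one_le_div hr).mpr (not_lt.mp htr)) hex
      rw [e1]
      have e5 : 0 ≤ (3 : ℝ) ^ (2 - dl m) := by positivity
      have e6 : 0 ≤ Gr m t := zero_le_one.trans (h1 t)
      calc (t / r0 m) ^ (-(2 - dl m)) * 3 ^ (2 - dl m) ≤ Gr m t * 9 :=
            mul_le_mul e4 e3 e5 e6
        _ = 9 * Gr m t := mul_comm _ _
    · rw [h4 _ (not_lt.mp h3)]
      have := h1 t
      linarith
  · unfold Gr
    apply Measurable.ite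
    · exact measurableSet_Ioo
    · fun_prop
    · exact measurable_const

theorem abs_le (v : E2) (i : Fin 2) : |v i| ≤ ‖v‖ := by
  have := PiLp.norm_apply_le v i
  rwa [Real.norm_eq_abs] at this

theorem one_le_abs {k : ℤ} (h : k ≠ 0) : (1 : ℝ) ≤ |(k : ℝ)| := by
  have : 1 ≤ |k| := Int.one_le_abs h
  exact_mod_cast this

theorem half_le_abs (k : ℤ) : (1 : ℝ) / 2 ≤ |(k : ℝ) + 1 / 2| := by
  rcases le_or_gt 0 k with h | h
  · have : (0 : ℝ) ≤ k := by exact_mod_cast h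
    rw [abs_of_nonneg (by linarith)]
    linarith
  · have h2 : k ≤ -1 := by omega
    have : (k : ℝ) ≤ -1 := by exact_mod_cast h2
    rw [abs_of_nonpos (by linarith)]
    linarith

theorem ze_sub_ze {p q : ℤ × ℤ} (h : ze p ≠ ze q) : 1 ≤ ‖ze p - ze q‖ := by
  have hpq : p ≠ q := fun e => h (by rw [e])
  by_cases h1 : p.1 = q.1
  · have h2 : p.2 ≠ q.2 := fun e => hpq (Prod.ext h1 e)
    have h3 : p.2 - q.2 ≠ 0 := sub_ne_zero.mpr h2
    have h4 := one_le_abs h3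
    refine h4.trans ?_
    have h5 := abs_le (ze p - ze q) 1
    have h6 : (ze p - ze q) 1 = ((p.2 - q.2 : ℤ) : ℝ) := by
      simp [ze]
    rwa [h6] at h5
  · have h3 : p.1 - q.1 ≠ 0 := sub_ne_zero.mpr h1
    have h4 := one_le_abs h3
    refine h4.trans ?_
    have h5 := abs_le (ze p - ze q) 0
    have h6 : (ze p - ze q) 0 = ((p.1 - q.1 : ℤ) : ℝ) := by
      simp [ze]
    rwa [h6] at h5

theorem zz_sub_zz {p q : ℤ × ℤ} (h : zz p ≠ zz q) : 1 ≤ ‖zz p - zz q‖ := by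
  have e : zz p - zz q = ze p - ze q := by
    ext i
    fin_cases i <;> simp [zz, ze]
  rw [e]
  apply ze_sub_ze
  intro h'
  apply h
  rw [← sub_eq_zero, e, h', sub_self]

theorem zz_sub_ze (p q : ℤ × ℤ) : 1 / 2 ≤ ‖zz p - ze q‖ := by
  have h5 := abs_le (zz p - ze q) 0
  have h6 : (zz p - ze q) 0 = ((p.1 - q.1 : ℤ) : ℝ) + 1 / 2 := by
    simp [ze, zz]
    ring
  rw [h6] at h5
  exact (half_le_abs _).trans h5

theorem infDist_eq {Z : Set E2} {a x : E2} (ha : a ∈ Z)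
    (hsep : ∀ b ∈ Z, b ≠ a → 1 ≤ ‖b - a‖) (hx : ‖x - a‖ ≤ 1 / 4) : infDist x Z = ‖x - a‖ := by
  apply le_antisymm
  · rw [← dist_eq_norm]
    exact infDist_le_dist_of_mem ha
  · rw [le_infDist ⟨a, ha⟩]
    intro b hb
    by_cases hba : b = a
    · rw [hba, dist_eq_norm]
    · have h1 := hsep b hb hba
      have h2 : ‖b - a‖ ≤ ‖x - a‖ + dist x b := by
        rw [dist_eq_norm]
        have : b - a = (x - a) - (x - b) := by abel
        rw [this]
        exact norm_sub_le _ _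
      linarith

theorem le_infDist_of {Z : Set E2} {a x : E2} (hZ : Z.Nonempty)
    (hsep : ∀ b ∈ Z, 1 / 2 ≤ ‖b - a‖) (hx : ‖x - a‖ ≤ 1 / 4) : 1 / 4 ≤ infDist x Z := by
  rw [le_infDist hZ]
  intro b hb
  have h1 := hsep b hb
  have h2 : ‖b - a‖ ≤ ‖x - a‖ + dist x b := by
    rw [dist_eq_norm]
    have : b - a = (x - a) - (x - b) := by abel
    rw [this]
    exact norm_sub_le _ _
  linarith

theorem t_LAT : S_LAT := by
  have hZf : Zf.Nonempty := ⟨ze (0, 0), Set.mem_range_self _⟩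
  have hZw : Zw.Nonempty := ⟨zz (0, 0), Set.mem_range_self _⟩
  refine ⟨hZf, hZw, ?_, ?_⟩
  · rintro a ⟨p, rfl⟩ x hx
    refine ⟨infDist_eq (Set.mem_range_self p) ?_ hx, le_infDist_of hZw ?_ hx⟩
    · rintro b ⟨q, rfl⟩ hne
      exact ze_sub_ze hne
    · rintro b ⟨q, rfl⟩
      exact zz_sub_ze q p
  · rintro a ⟨p, rfl⟩ x hx
    refine ⟨infDist_eq (Set.mem_range_self p) ?_ hx, le_infDist_of hZf ?_ hx⟩
    · rintro b ⟨q, rfl⟩ hne
      exact zz_sub_zz hne
    · rintro b ⟨q, rfl⟩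
      rw [norm_sub_rev]
      exact zz_sub_ze p q

/-- the integers in an interval -/
theorem card_int (c ρ : ℝ) (hρ : 0 ≤ ρ) :
    ((Finset.Icc ⌈c - ρ⌉ ⌊c + ρ⌋).card : ℝ) ≤ 2 * ρ + 1 := by
  rw [Int.card_Icc]
  by_cases h : 0 ≤ ⌊c + ρ⌋ + 1 - ⌈c - ρ⌉
  · have h1 : (((⌊c + ρ⌋ + 1 - ⌈c - ρ⌉).toNat : ℤ) : ℝ) = ((⌊c + ρ⌋ + 1 - ⌈c - ρ⌉ : ℤ) : ℝ) := by
      rw [Int.toNat_of_nonneg h]
    have h2 : (((⌊c + ρ⌋ + 1 - ⌈c - ρ⌉).toNat : ℕ) : ℝ) = ((⌊c + ρ⌋ + 1 - ⌈c - ρ⌉ : ℤ) : ℝ) := by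
      rw [← h1]
      norm_cast
    rw [h2]
    push_cast
    have h3 := Int.floor_le (c + ρ)
    have h4 := Int.le_ceil (c - ρ)
    linarith
  · rw [Int.toNat_of_nonpos (by omega)]
    simp
    linarith

theorem cnt_aux (x0 x1 R : ℝ) (hR : 1 / 16 ≤ R) :
    ∃ s : Finset (ℤ × ℤ), (∀ p : ℤ × ℤ, |x0 - p.1| ≤ R + 1 / 16 → |x1 - p.2| ≤ R + 1 / 16 → p ∈ s) ∧
      (s.card : ℝ) ≤ 400 * R ^ 2 := by
  refine ⟨Finset.Icc ⌈x0 - (R + 1 / 16)⌉ ⌊x0 + (R + 1 / 16)⌋ ×ˢ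
    Finset.Icc ⌈x1 - (R + 1 / 16)⌉ ⌊x1 + (R + 1 / 16)⌋, ?_, ?_⟩
  · intro p h0 h1
    rw [_root_.abs_le] at h0 h1
    rw [Finset.mem_product, Finset.mem_Icc, Finset.mem_Icc]
    refine ⟨⟨Int.ceil_le.mpr ?_, Int.le_floor.mpr ?_⟩, Int.ceil_le.mpr ?_, Int.le_floor.mpr ?_⟩ <;>
      linarith
  · rw [Finset.card_product]
    push_cast
    have h0 := card_int x0 (R + 1 / 16) (by linarith)
    have h1 := card_int x1 (R + 1 / 16) (by linarith)
    have e : 2 * (R + 1 / 16) + 1 ≤ 20 * R := by linarith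
    calc ((Finset.Icc ⌈x0 - (R + 1 / 16)⌉ ⌊x0 + (R + 1 / 16)⌋).card : ℝ) *
          ((Finset.Icc ⌈x1 - (R + 1 / 16)⌉ ⌊x1 + (R + 1 / 16)⌋).card : ℝ)
        ≤ (20 * R) * (20 * R) := by
          apply mul_le_mul (h0.trans e) (h1.trans e) (by positivity) (by linarith)
      _ = 400 * R ^ 2 := by ring

theorem t_CNT : S_CNT := by
  intro x R hR
  constructor
  · obtain ⟨s, h1, h2⟩ := cnt_aux (x 0) (x 1) R hR
    refine ⟨s, fun p hp => h1 p ?_ ?_, h2⟩
    · have := abs_le (x - ze p) 0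
      have e : (x - ze p) 0 = x 0 - p.1 := by simp [ze]
      rw [e] at this
      exact this.trans hp
    · have := abs_le (x - ze p) 1
      have e : (x - ze p) 1 = x 1 - p.2 := by simp [ze]
      rw [e] at this
      exact this.trans hp
  · obtain ⟨s, h1, h2⟩ := cnt_aux (x 0 - 1 / 2) (x 1 - 1 / 2) R hR
    refine ⟨s, fun p hp => h1 p ?_ ?_, h2⟩
    · have := abs_le (x - zz p) 0
      have e : (x - zz p) 0 = x 0 - 1 / 2 - p.1 := by
        simp [zz]
        ring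
      rw [e] at this
      exact this.trans hp
    · have := abs_le (x - zz p) 1
      have e : (x - zz p) 1 = x 1 - 1 / 2 - p.2 := by
        simp [zz]
        ring
      rw [e] at this
      exact this.trans hp

end

end Pool.Agent.Run7.h937.RSI
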